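import Pool.Agent.Q110.RT.Ex

set_option autoImplicit false

namespace Pool.Agent.Q110.RT

open Set

universe u v

section lex

variable {α : Type u} {β : Type v} [Lattice α] [Lattice β]

theorem il {a b : α} : (toLex (Sum.inl a) : α ⊕ₗ β) ≤ toLex (Sum.inl b) ↔ a ≤ b :=
  Sum.Lex.inl_le_inl_iff

theorem ir {a b : β} : (toLex (Sum.inr a) : α ⊕ₗ β) ≤ toLex (Sum.inr b) ↔ a ≤ b :=
  Sum.Lex.inr_le_inr_iff

theorem ilr (a : α) (b : β) : (toLex (Sum.inl a) : α ⊕ₗ β) ≤ toLex (Sum.inr b) :=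
  Sum.Lex.inl_le_inr a b

theorem irl (a : α) (b : β) : ¬ (toLex (Sum.inr b) : α ⊕ₗ β) ≤ toLex (Sum.inl a) :=
  Sum.Lex.not_inr_le_inl

/-- join in the ordinal sum -/
def jn : α ⊕ₗ β → α ⊕ₗ β → α ⊕ₗ β
  | Sum.inl a, Sum.inl b => toLex (Sum.inl (a ⊔ b))
  | Sum.inl _, Sum.inr b => toLex (Sum.inr b)
  | Sum.inr a, Sum.inl _ => toLex (Sum.inr a)
  | Sum.inr a, Sum.inr b => toLex (Sum.inr (a ⊔ b))

/-- meet in the ordinal sum -/
def mt : α ⊕ₗ β → α ⊕ₗ β → α ⊕ₗ β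
  | Sum.inl a, Sum.inl b => toLex (Sum.inl (a ⊓ b))
  | Sum.inl a, Sum.inr _ => toLex (Sum.inl a)
  | Sum.inr _, Sum.inl b => toLex (Sum.inl b)
  | Sum.inr a, Sum.inr b => toLex (Sum.inr (a ⊓ b))

theorem cs (x : α ⊕ₗ β) : (∃ a, x = toLex (Sum.inl a)) ∨ ∃ b, x = toLex (Sum.inr b) := by
  rcases x with a | b
  · exact Or.inl ⟨a, rfl⟩
  · exact Or.inr ⟨b, rfl⟩

/-- The ordinal sum of two lattices is a lattice. -/
@[reducible] def lexLattice : Lattice (α ⊕ₗ β) :=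
  { (inferInstance : PartialOrder (α ⊕ₗ β)) with
    sup := jn
    inf := mt
    le_sup_left := by
      intro x y
      rcases cs x with ⟨a, rfl⟩ | ⟨a, rfl⟩ <;> rcases cs y with ⟨b, rfl⟩ | ⟨b, rfl⟩
      · exact il.2 le_sup_left
      · exact ilr _ _
      · exact le_rfl
      · exact ir.2 le_sup_left
    le_sup_right := by
      intro x y
      rcases cs x with ⟨a, rfl⟩ | ⟨a, rfl⟩ <;> rcases cs y with ⟨b, rfl⟩ | ⟨b, rfl⟩
      · exact il.2 le_sup_right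
      · exact le_rfl
      · exact ilr _ _
      · exact ir.2 le_sup_right
    sup_le := by
      intro x y z
      rcases cs x with ⟨a, rfl⟩ | ⟨a, rfl⟩ <;> rcases cs y with ⟨b, rfl⟩ | ⟨b, rfl⟩ <;>
        rcases cs z with ⟨c, rfl⟩ | ⟨c, rfl⟩ <;> intro h1 h2
      · exact il.2 (sup_le (il.1 h1) (il.1 h2))
      · exact ilr _ _
      · exact h2
      · exact h2
      · exact h1
      · exact h1
      · exact absurd h1 (irl _ _)
      · exact ir.2 (sup_le (ir.1 h1) (ir.1 h2))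
    inf_le_left := by
      intro x y
      rcases cs x with ⟨a, rfl⟩ | ⟨a, rfl⟩ <;> rcases cs y with ⟨b, rfl⟩ | ⟨b, rfl⟩
      · exact il.2 inf_le_left
      · exact le_rfl
      · exact ilr _ _
      · exact ir.2 inf_le_left
    inf_le_right := by
      intro x y
      rcases cs x with ⟨a, rfl⟩ | ⟨a, rfl⟩ <;> rcases cs y with ⟨b, rfl⟩ | ⟨b, rfl⟩
      · exact il.2 inf_le_right
      · exact ilr _ _
      · exact le_rfl
      · exact ir.2 inf_le_right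
    le_inf := by
      intro z x y
      rcases cs x with ⟨a, rfl⟩ | ⟨a, rfl⟩ <;> rcases cs y with ⟨b, rfl⟩ | ⟨b, rfl⟩ <;>
        rcases cs z with ⟨c, rfl⟩ | ⟨c, rfl⟩ <;> intro h1 h2
      · exact il.2 (le_inf (il.1 h1) (il.1 h2))
      · exact absurd h1 (irl _ _)
      · exact h1
      · exact h1
      · exact h2
      · exact h2
      · exact ilr _ _
      · exact ir.2 (le_inf (ir.1 h1) (ir.1 h2)) }

theorem lex_modular [IsModularLattice α] [IsModularLattice β] :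
    @IsModularLattice (α ⊕ₗ β) lexLattice := by
  letI := @lexLattice α β _ _
  refine ⟨?_⟩
  intro x y z
  rcases cs x with ⟨a, rfl⟩ | ⟨a, rfl⟩ <;> rcases cs y with ⟨b, rfl⟩ | ⟨b, rfl⟩ <;>
    rcases cs z with ⟨c, rfl⟩ | ⟨c, rfl⟩ <;> intro h
  · exact il.2 (sup_inf_assoc_of_le b (il.1 h)).le
  · exact le_rfl
  · exact il.2 le_sup_right
  · exact le_rfl
  · exact absurd h (irl _ _)
  · exact ir.2 inf_le_left
  · exact absurd h (irl _ _)
  · exact ir.2 (sup_inf_assoc_of_le b (ir.1 h)).le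

end lex

/-- the bounded example -/
abbrev Y : Type := (ℕ × Set ℕ) ⊕ₗ ℕᵒᵈ

theorem Y_modular : IsModLat Y := by
  have := @isModLat_of_modular Y lexLattice lex_modular
  exact this

theorem Y_bounded : (∃ t : Y, ∀ y, y ≤ t) ∧ ∃ b : Y, ∀ y, b ≤ y := by
  constructor
  · refine ⟨toLex (Sum.inr (OrderDual.toDual 0)), fun y => ?_⟩
    rcases cs y with ⟨a, rfl⟩ | ⟨a, rfl⟩
    · exact ilr _ _
    · exact ir.2 (Nat.zero_le (OrderDual.ofDual a))
  · refine ⟨toLex (Sum.inl (0, ∅)), fun y => ?_⟩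
    rcases cs y with ⟨a, rfl⟩ | ⟨a, rfl⟩
    · exact il.2 ⟨Nat.zero_le _, Set.empty_subset _⟩
    · exact ilr _ _

/-- The retraction of `Y`. -/
noncomputable def ry : Y → Y
  | Sum.inl a => toLex (Sum.inl (rr a))
  | Sum.inr b => toLex (Sum.inr b)

theorem ry_retraction : IsRetraction ry := by
  constructor
  · intro x y
    rcases cs x with ⟨a, rfl⟩ | ⟨a, rfl⟩ <;> rcases cs y with ⟨b, rfl⟩ | ⟨b, rfl⟩ <;> intro h
    · exact il.2 (rr_retraction.1 (il.1 h))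
    · exact ilr _ _
    · exact absurd h (irl _ _)
    · exact h
  · intro x
    rcases cs x with ⟨a, rfl⟩ | ⟨a, rfl⟩
    · change toLex (Sum.inl (rr (rr a))) = toLex (Sum.inl (rr a))
      rw [rr_retraction.2 a]
    · rfl

theorem Y_fails : ¬ PropC' Y := by
  intro h
  obtain ⟨φ, ω, hφ, hω, hrep⟩ := (h (Set.range ry) ⟨_, toLex (Sum.inl (0, ∅)), rfl⟩).1
    ⟨ry, ry_retraction, rfl⟩
  obtain ⟨f1, f2, f3, f4⟩ := rep_facts hφ hω hrep
  have hmemr : ∀ b : ℕᵒᵈ, (toLex (Sum.inr b) : Y) ∈ Set.range ry := fun b =>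
    ⟨toLex (Sum.inr b), rfl⟩
  have hmeml : ∀ a ∈ Set.range rr, (toLex (Sum.inl a) : Y) ∈ Set.range ry := by
    rintro _ ⟨a, rfl⟩
    exact ⟨toLex (Sum.inl a), rfl⟩
  set x : Y := toLex (Sum.inl (3, Set.univ)) with hx
  rcases cs (φ x) with ⟨z, hz⟩ | ⟨b, hb⟩
  · have hxz : ((3 : ℕ), (Set.univ : Set ℕ)) ≤ z := by
      have h1 := hφ.2 x
      rw [hz, hx] at h1
      exact il.1 h1
    have h2 : ω (φ x) ≤ toLex (Sum.inl z) := by rw [← hz]; exact hω.2 _
    rcases cs (ω (φ x)) with ⟨m, hm⟩ | ⟨b, hb⟩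
    · apply no_greatest z hxz m
      refine ⟨⟨?_, ?_⟩, ?_⟩
      · obtain ⟨w, hw⟩ := f2 x
        rw [hm] at hw
        rcases cs w with ⟨w', rfl⟩ | ⟨w', rfl⟩
        · have h3 : (toLex (Sum.inl (rr w')) : Y) = toLex (Sum.inl m) := hw
          have h4 : rr w' = m := le_antisymm (il.1 h3.le) (il.1 h3.ge)
          exact ⟨w', h4⟩
        · exact absurd hw.le (irl _ _)
      · rw [hm] at h2; exact il.1 h2
      · rintro ρ ⟨hρ, hρz⟩
        have h3 : ω (toLex (Sum.inl ρ)) ≤ ω (φ x) := by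
          apply hω.1.1
          rw [hz]; exact il.2 hρz
        rw [f4 _ (hmeml ρ hρ), hm] at h3
        exact il.1 h3
    · rw [hb] at h2
      exact irl _ _ h2
  · have h1 : φ x ≤ φ (toLex (Sum.inr (OrderDual.toDual (OrderDual.ofDual b + 1)))) :=
      hφ.1.1 (ilr _ _)
    rw [f3 _ (hmemr _), hb] at h1
    have h2 := ir.1 h1
    have h3 : OrderDual.ofDual b + 1 ≤ OrderDual.ofDual b := h2
    omega

end Pool.Agent.Q110.RT
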