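import Mathlib

set_option autoImplicit false

/-!
# Retracts, closure operators and anticlosure operators

Definitions for `MP_017791_co`.
-/

namespace Pool.Agent.Q110.RT

universe u

/-- A retraction: an order-preserving idempotent map. -/
def IsRetraction {P : Type u} [PartialOrder P] (r : P → P) : Prop :=
  Monotone r ∧ ∀ x, r (r x) = r x

/-- `R` is a retract of `P`. -/
def IsRetract {P : Type u} [PartialOrder P] (R : Set P) : Prop :=
  ∃ r : P → P, IsRetraction r ∧ Set.range r = R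

/-- A closure operator. -/
def IsClosure {P : Type u} [PartialOrder P] (φ : P → P) : Prop :=
  IsRetraction φ ∧ ∀ x, x ≤ φ x

/-- An anticlosure operator. -/
def IsAnticlosure {P : Type u} [PartialOrder P] (ω : P → P) : Prop :=
  IsRetraction ω ∧ ∀ x, ω x ≤ x

/-- The three equalities `R = φω(P) = ωφ(P) = φ(P) ∩ ω(P)`. -/
def Rep {P : Type u} (R : Set P) (φ ω : P → P) : Prop :=
  R = Set.range (φ ∘ ω) ∧ R = Set.range (ω ∘ φ) ∧ R = Set.range φ ∩ Set.range ω

/-- Property (C) of the problem file. -/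
def PropC (P : Type u) [PartialOrder P] : Prop :=
  ∀ R : Set P, R.Nonempty → (IsRetract R ↔
    ∃ φ ω : P → P, IsClosure φ ∧ IsAnticlosure ω ∧ φ ∘ ω = ω ∘ φ ∧ Rep R φ ω)

/-- Property (C) without the requirement `φ ∘ ω = ω ∘ φ`. -/
def PropC' (P : Type u) [PartialOrder P] : Prop :=
  ∀ R : Set P, R.Nonempty → (IsRetract R ↔
    ∃ φ ω : P → P, IsClosure φ ∧ IsAnticlosure ω ∧ Rep R φ ω)

/-- The poset `P` is a lattice. -/
def IsLat (P : Type u) [PartialOrder P] : Prop :=
  ∀ a b : P, (∃ j, IsLUB {a, b} j) ∧ ∃ m, IsGLB {a, b} m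

/-- The poset `P` is a modular lattice: `(a ∨ b) ∧ c = a ∨ (b ∧ c)` whenever `a ≤ c`. -/
def IsModLat (P : Type u) [PartialOrder P] : Prop :=
  IsLat P ∧ ∀ a b c j m k l : P, a ≤ c → IsLUB {a, b} j → IsGLB {j, c} m →
    IsGLB {b, c} k → IsLUB {a, k} l → m = l

end Pool.Agent.Q110.RT
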