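import Pool.Agent.Q110.RT.Suf

set_option autoImplicit false

/-!
`ℕ × Set ℕ` does not have property (C'), and neither has its ordinal sum with a descending chain.
-/

namespace Pool.Agent.Q110.RT

open Set

/-- The weight of a set of natural numbers: `0` for the empty set, otherwise one plus the
number of elements plus the maximum (for finite sets). -/
noncomputable def wt (S : Set ℕ) : ℕ := sSup ((fun m => m + 1) '' S) + S.ncard

theorem wt_mono {S T : Set ℕ} (hT : T.Finite) (h : S ⊆ T) : wt S ≤ wt T := by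
  unfold wt
  apply Nat.add_le_add
  · rcases S.eq_empty_or_nonempty with rfl | hne
    · simp
    · exact csSup_le_csSup (hT.image _).bddAbove (hne.image _) (Set.image_mono h)
  · exact Set.ncard_le_ncard h hT

theorem lt_wt {S : Set ℕ} (hS : S.Finite) {m : ℕ} (hm : m ∈ S) : m + 1 < wt S + 1 := by
  unfold wt
  have h1 : m + 1 ≤ sSup ((fun m => m + 1) '' S) :=
    le_csSup (hS.image _).bddAbove ⟨m, hm, rfl⟩
  omega

theorem wt_singleton (m : ℕ) : wt {m} = m + 2 := by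
  unfold wt
  rw [Set.image_singleton, csSup_singleton, Set.ncard_singleton]

theorem wt_pair (m : ℕ) (hm : 0 < m) : wt {0, m} = m + 3 := by
  unfold wt
  have h1 : sSup ((fun m => m + 1) '' ({0, m} : Set ℕ)) = m + 1 := by
    apply le_antisymm
    · apply csSup_le
      · exact ⟨1, 0, by simp, rfl⟩
      · rintro _ ⟨k, hk, rfl⟩
        rcases hk with rfl | hk
        · show 0 + 1 ≤ m + 1
          omega
        · rw [Set.mem_singleton_iff] at hk
          show k + 1 ≤ m + 1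
          omega
    · apply le_csSup
      · exact ((Set.toFinite _).image _).bddAbove
      · exact ⟨m, by simp, rfl⟩
  rw [h1, Set.ncard_pair (by omega)]

/-- The truncation of `T` at level `n`. -/
def tr (n : ℕ) (T : Set ℕ) : Set ℕ := {m | m ∈ T ∧ m + 2 ≤ n}

theorem tr_finite (n : ℕ) (T : Set ℕ) : (tr n T).Finite :=
  (Set.finite_Iio n).subset (fun m hm => by
    have := hm.2
    show m < n
    omega)

theorem tr_wt {S : Set ℕ} (hS : S.Finite) : tr (wt S) S = S := by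
  apply Set.eq_of_subset_of_subset (fun m hm => hm.1)
  intro m hm
  refine ⟨hm, ?_⟩
  have h1 : m + 1 ≤ sSup ((fun m => m + 1) '' S) :=
    le_csSup (hS.image _).bddAbove ⟨m, hm, rfl⟩
  have h2 : 0 < S.ncard := (Set.ncard_pos hS).2 ⟨m, hm⟩
  unfold wt
  omega

/-- The retraction of `ℕ × Set ℕ`. -/
noncomputable def rr (y : ℕ × Set ℕ) : ℕ × Set ℕ := (wt (tr y.1 y.2), tr y.1 y.2)

theorem rr_retraction : IsRetraction rr := by
  constructor
  · rintro ⟨n, T⟩ ⟨n', T'⟩ ⟨h1, h2⟩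
    have h3 : tr n T ⊆ tr n' T' := fun m hm => ⟨h2 hm.1, le_trans hm.2 h1⟩
    exact ⟨wt_mono (tr_finite _ _) h3, h3⟩
  · rintro ⟨n, T⟩
    change (wt (tr (wt (tr n T)) (tr n T)), tr (wt (tr n T)) (tr n T)) = (wt (tr n T), tr n T)
    rw [tr_wt (tr_finite n T)]

theorem mem_rr {S : Set ℕ} (hS : S.Finite) : (wt S, S) ∈ Set.range rr :=
  ⟨(wt S, S), by
    change (wt (tr (wt S) S), tr (wt S) S) = (wt S, S)
    rw [tr_wt hS]⟩

theorem rr_mem {y : ℕ × Set ℕ} (hy : y ∈ Set.range rr) : y.2.Finite ∧ y.1 = wt y.2 := by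
  obtain ⟨⟨n, T⟩, rfl⟩ := hy
  exact ⟨tr_finite _ _, rfl⟩

/-- above `(3, univ)` no element has a greatest element of the retract below it. -/
theorem no_greatest (z : ℕ × Set ℕ) (hz : ((3 : ℕ), (Set.univ : Set ℕ)) ≤ z) (m : ℕ × Set ℕ)
    (hm : IsGreatest (Set.range rr ∩ Set.Iic z) m) : False := by
  obtain ⟨n, T⟩ := z
  have hn : 3 ≤ n := hz.1
  have hT : T = Set.univ := Set.eq_univ_of_univ_subset hz.2
  subst hT
  obtain ⟨hm1, hm2⟩ := hm
  obtain ⟨hmf, hmw⟩ := rr_mem hm1.1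
  have hmn : m.1 ≤ n := hm1.2.1
  have a1 : ((wt {0}, {0}) : ℕ × Set ℕ) ≤ m := by
    apply hm2
    refine ⟨mem_rr (Set.finite_singleton 0), ?_, Set.subset_univ _⟩
    change wt {0} ≤ n
    rw [wt_singleton]; omega
  have a2 : ((wt {n - 2}, {n - 2}) : ℕ × Set ℕ) ≤ m := by
    apply hm2
    refine ⟨mem_rr (Set.finite_singleton _), ?_, Set.subset_univ _⟩
    change wt {n - 2} ≤ n
    rw [wt_singleton]; omega
  have h1 : ({0, n - 2} : Set ℕ) ⊆ m.2 := by
    intro k hk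
    rcases hk with rfl | hk
    · exact a1.2 rfl
    · exact a2.2 hk
  have h2 := wt_mono hmf h1
  rw [wt_pair (n - 2) (by omega), ← hmw] at h2
  omega

theorem ex_fails : ¬ PropC' (ℕ × Set ℕ) := by
  intro h
  obtain ⟨φ, ω, hφ, hω, hrep⟩ := (h (Set.range rr) ⟨rr (0, ∅), (0, ∅), rfl⟩).1
    ⟨rr, rr_retraction, rfl⟩
  obtain ⟨f1, f2, f3, f4⟩ := rep_facts hφ hω hrep
  apply no_greatest (φ (3, Set.univ)) (hφ.2 _) (ω (φ (3, Set.univ)))
  refine ⟨⟨f2 _, hω.2 _⟩, ?_⟩
  rintro ρ ⟨hρ, hρz⟩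
  calc ρ = ω ρ := (f4 ρ hρ).symm
    _ ≤ ω (φ (3, Set.univ)) := hω.1.1 hρz

end Pool.Agent.Q110.RT
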