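import Pool.Agent.Q110.RT.Defs

set_option autoImplicit false

namespace Pool.Agent.Q110.RT

universe u

variable {P : Type u} [PartialOrder P]

/-- A representation always gives a retract. -/
theorem retract_of_rep {R : Set P} {φ ω : P → P} (hφ : IsClosure φ) (hω : IsAnticlosure ω)
    (h : Rep R φ ω) : IsRetract R := by
  obtain ⟨h1, h2, h3⟩ := h
  refine ⟨φ ∘ ω, ⟨hφ.1.1.comp hω.1.1, ?_⟩, h1.symm⟩
  intro x
  have hx : (φ ∘ ω) x ∈ R := by rw [h1]; exact ⟨x, rfl⟩
  have hx' := hx
  rw [h3] at hx'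
  obtain ⟨⟨y, hy⟩, ⟨z, hz⟩⟩ := hx'
  have e1 : φ ((φ ∘ ω) x) = (φ ∘ ω) x := by rw [← hy]; exact hφ.1.2 y
  have e2 : ω ((φ ∘ ω) x) = (φ ∘ ω) x := by rw [← hz]; exact hω.1.2 z
  change φ (ω ((φ ∘ ω) x)) = (φ ∘ ω) x
  rw [e2, e1]

theorem propC'_of_propC (h : PropC P) : PropC' P := by
  intro R hR
  constructor
  · intro hr
    obtain ⟨φ, ω, h1, h2, _, h4⟩ := (h R hR).1 hr
    exact ⟨φ, ω, h1, h2, h4⟩
  · rintro ⟨φ, ω, h1, h2, h3⟩
    exact retract_of_rep h1 h2 h3

/-- facts about a representation -/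
theorem rep_facts {R : Set P} {φ ω : P → P} (hφ : IsClosure φ) (hω : IsAnticlosure ω)
    (h : Rep R φ ω) : (∀ x, φ (ω x) ∈ R) ∧ (∀ x, ω (φ x) ∈ R) ∧ (∀ x ∈ R, φ x = x) ∧
      (∀ x ∈ R, ω x = x) := by
  obtain ⟨h1, h2, h3⟩ := h
  refine ⟨fun x => by rw [h1]; exact ⟨x, rfl⟩, fun x => by rw [h2]; exact ⟨x, rfl⟩, ?_, ?_⟩
  · intro x hx
    rw [h3] at hx
    obtain ⟨⟨y, hy⟩, _⟩ := hx
    rw [← hy]; exact hφ.1.2 y
  · intro x hx
    rw [h3] at hx
    obtain ⟨_, ⟨y, hy⟩⟩ := hx
    rw [← hy]; exact hω.1.2 y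

open Classical in
/-- (C') implies lattice. -/
theorem isLat_of_propC' (h : PropC' P) : IsLat P := by
  intro a b
  constructor
  · -- join
    let U : Set P := {u | a ≤ u ∧ b ≤ u}
    let r : P → P := fun x => if x ∈ U then x else a
    have hr : IsRetraction r := by
      constructor
      · intro x y hxy
        change (if x ∈ U then x else a) ≤ (if y ∈ U then y else a)
        by_cases hx : x ∈ U
        · have hy : y ∈ U := ⟨hx.1.trans hxy, hx.2.trans hxy⟩
          rw [if_pos hx, if_pos hy]; exact hxy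
        · rw [if_neg hx]
          by_cases hy : y ∈ U
          · rw [if_pos hy]; exact hy.1
          · rw [if_neg hy]
      · intro x
        change (if (if x ∈ U then x else a) ∈ U then (if x ∈ U then x else a) else a) =
          (if x ∈ U then x else a)
        by_cases hx : x ∈ U
        · rw [if_pos hx, if_pos hx]
        · rw [if_neg hx]
          by_cases ha : a ∈ U
          · rw [if_pos ha]
          · rw [if_neg ha]
    have hR : IsRetract (Set.range r) := ⟨r, hr, rfl⟩
    have hmem : ∀ u ∈ U, u ∈ Set.range r := fun u hu => ⟨u, if_pos hu⟩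
    have hge : ∀ y ∈ Set.range r, a ≤ y := by
      rintro y ⟨x, rfl⟩
      change a ≤ (if x ∈ U then x else a)
      by_cases hx : x ∈ U
      · rw [if_pos hx]; exact hx.1
      · rw [if_neg hx]
    obtain ⟨φ, ω, hφ, hω, hrep⟩ := (h (Set.range r) ⟨r a, a, rfl⟩).1 hR
    obtain ⟨f1, f2, f3, f4⟩ := rep_facts hφ hω hrep
    refine ⟨φ b, ?_, ?_⟩
    · intro y hy
      rcases hy with rfl | hy
      · exact (hge _ (f2 b)).trans (hω.2 _)
      · rw [Set.mem_singleton_iff] at hy
        rw [hy]; exact hφ.2 b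
    · intro u hu
      have hu' : u ∈ U := ⟨hu (Or.inl rfl), hu (Or.inr rfl)⟩
      calc φ b ≤ φ u := hφ.1.1 hu'.2
        _ = u := f3 u (hmem u hu')
  · -- meet
    let U : Set P := {u | u ≤ a ∧ u ≤ b}
    let r : P → P := fun x => if x ∈ U then x else a
    have hr : IsRetraction r := by
      constructor
      · intro x y hxy
        change (if x ∈ U then x else a) ≤ (if y ∈ U then y else a)
        by_cases hy : y ∈ U
        · have hx : x ∈ U := ⟨hxy.trans hy.1, hxy.trans hy.2⟩
          rw [if_pos hx, if_pos hy]; exact hxy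
        · rw [if_neg hy]
          by_cases hx : x ∈ U
          · rw [if_pos hx]; exact hx.1
          · rw [if_neg hx]
      · intro x
        change (if (if x ∈ U then x else a) ∈ U then (if x ∈ U then x else a) else a) =
          (if x ∈ U then x else a)
        by_cases hx : x ∈ U
        · rw [if_pos hx, if_pos hx]
        · rw [if_neg hx]
          by_cases ha : a ∈ U
          · rw [if_pos ha]
          · rw [if_neg ha]
    have hR : IsRetract (Set.range r) := ⟨r, hr, rfl⟩
    have hmem : ∀ u ∈ U, u ∈ Set.range r := fun u hu => ⟨u, if_pos hu⟩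
    have hge : ∀ y ∈ Set.range r, y ≤ a := by
      rintro y ⟨x, rfl⟩
      change (if x ∈ U then x else a) ≤ a
      by_cases hx : x ∈ U
      · rw [if_pos hx]; exact hx.1
      · rw [if_neg hx]
    obtain ⟨φ, ω, hφ, hω, hrep⟩ := (h (Set.range r) ⟨r a, a, rfl⟩).1 hR
    obtain ⟨f1, f2, f3, f4⟩ := rep_facts hφ hω hrep
    refine ⟨ω b, ?_, ?_⟩
    · intro y hy
      rcases hy with rfl | hy
      · exact (hφ.2 _).trans (hge _ (f1 b))
      · rw [Set.mem_singleton_iff] at hy
        rw [hy]; exact hω.2 b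
    · intro u hu
      have hu' : u ∈ U := ⟨hu (Or.inl rfl), hu (Or.inr rfl)⟩
      calc u = ω u := (f4 u (hmem u hu')).symm
        _ ≤ ω b := hω.1.1 hu'.2

open Classical in
/-- (C) implies modular lattice. -/
theorem isModLat_of_propC (h : PropC P) : IsModLat P := by
  have hl : IsLat P := isLat_of_propC' (propC'_of_propC h)
  refine ⟨hl, ?_⟩
  intro a b c q0 q k p hac hj hq hk hp
  -- p ≤ q
  have hka : k ≤ b := hk.1 (Or.inl rfl)
  have hkc : k ≤ c := hk.1 (Or.inr rfl)
  have haj : a ≤ q0 := hj.1 (Or.inl rfl)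
  have hbj : b ≤ q0 := hj.1 (Or.inr rfl)
  have hqj : q ≤ q0 := hq.1 (Or.inl rfl)
  have hqc : q ≤ c := hq.1 (Or.inr rfl)
  have hap : a ≤ p := hp.1 (Or.inl rfl)
  have hkp : k ≤ p := hp.1 (Or.inr rfl)
  have hpq : p ≤ q := by
    apply hp.2
    intro y hy
    rcases hy with rfl | hy
    · apply hq.2
      intro z hz
      rcases hz with rfl | hz
      · exact haj
      · rw [Set.mem_singleton_iff] at hz; rw [hz]; exact hac
    · rw [Set.mem_singleton_iff] at hy
      rw [hy]
      apply hq.2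
      intro z hz
      rcases hz with rfl | hz
      · exact hka.trans hbj
      · rw [Set.mem_singleton_iff] at hz; rw [hz]; exact hkc
  by_contra hne
  have hnle : ¬ q ≤ p := fun hh => hne (le_antisymm hh hpq)
  let r : P → P := fun y => if q ≤ y then q else p
  have hr : IsRetraction r := by
    constructor
    · intro x y hxy
      change (if q ≤ x then q else p) ≤ (if q ≤ y then q else p)
      by_cases hx : q ≤ x
      · rw [if_pos hx, if_pos (hx.trans hxy)]
      · rw [if_neg hx]
        by_cases hy : q ≤ y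
        · rw [if_pos hy]; exact hpq
        · rw [if_neg hy]
    · intro x
      change (if q ≤ (if q ≤ x then q else p) then q else p) = (if q ≤ x then q else p)
      by_cases hx : q ≤ x
      · rw [if_pos hx, if_pos le_rfl]
      · rw [if_neg hx, if_neg hnle]
  have hR : IsRetract (Set.range r) := ⟨r, hr, rfl⟩
  have hmq : q ∈ Set.range r := ⟨q, if_pos le_rfl⟩
  have hmp : p ∈ Set.range r := ⟨p, if_neg hnle⟩
  have hcase : ∀ y ∈ Set.range r, y = q ∨ y = p := by
    rintro y ⟨x, rfl⟩
    change (if q ≤ x then q else p) = q ∨ (if q ≤ x then q else p) = p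
    by_cases hx : q ≤ x
    · left; rw [if_pos hx]
    · right; rw [if_neg hx]
  obtain ⟨φ, ω, hφ, hω, hcomm, hrep⟩ := (h (Set.range r) ⟨r a, a, rfl⟩).1 hR
  obtain ⟨f1, f2, f3, f4⟩ := rep_facts hφ hω hrep
  have hc : φ (ω b) = ω (φ b) := congrFun hcomm b
  rcases hcase _ (f1 b) with hd | hd
  · -- φ (ω b) = q
    have hωb : ω b ≤ b := hω.2 b
    have hωq : ω b ≤ q := by rw [← hd]; exact hφ.2 _
    have h1 : ω b ≤ k := by
      apply hk.2
      intro z hz
      rcases hz with rfl | hz
      · exact hωb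
      · rw [Set.mem_singleton_iff] at hz; rw [hz]; exact hωq.trans hqc
    have h2 : φ (ω b) ≤ φ p := hφ.1.1 (h1.trans hkp)
    rw [f3 p hmp, hd] at h2
    exact hnle h2
  · rw [hc] at hd
    have h1 : b ≤ φ b := hφ.2 b
    have h2 : p ≤ φ b := by rw [← hd]; exact hω.2 _
    have h3 : q0 ≤ φ b := by
      apply hj.2
      intro z hz
      rcases hz with rfl | hz
      · exact hap.trans h2
      · rw [Set.mem_singleton_iff] at hz; rw [hz]; exact h1
    have h4 : ω q ≤ ω (φ b) := hω.1.1 (hqj.trans h3)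
    rw [f4 q hmq, hd] at h4
    exact hnle h4

end Pool.Agent.Q110.RT
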