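import Pool.Agent.Q110.RT.Nec

set_option autoImplicit false

namespace Pool.Agent.Q110.RT

universe u

/-- The lattice structure of a poset which is a lattice. -/
@[reducible] noncomputable def mkLattice {P : Type u} [I : PartialOrder P] (h : IsLat P) :
    Lattice P :=
  { I with
    sup := fun a b => Classical.choose (h a b).1
    le_sup_left := fun a b => (Classical.choose_spec (h a b).1).1 (Or.inl rfl)
    le_sup_right := fun a b => (Classical.choose_spec (h a b).1).1 (Or.inr rfl)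
    sup_le := fun a b c hac hbc => (Classical.choose_spec (h a b).1).2 (by
      intro y hy
      rcases hy with rfl | hy
      · exact hac
      · rw [Set.mem_singleton_iff] at hy; rw [hy]; exact hbc)
    inf := fun a b => Classical.choose (h a b).2
    inf_le_left := fun a b => (Classical.choose_spec (h a b).2).1 (Or.inl rfl)
    inf_le_right := fun a b => (Classical.choose_spec (h a b).2).1 (Or.inr rfl)
    le_inf := fun a b c hab hac => (Classical.choose_spec (h b c).2).2 (by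
      intro y hy
      rcases hy with rfl | hy
      · exact hab
      · rw [Set.mem_singleton_iff] at hy; rw [hy]; exact hac) }

section lat

variable {L : Type u} [Lattice L]

theorem isLat_of_lattice : IsLat L := fun _ _ => ⟨⟨_, isLUB_pair⟩, ⟨_, isGLB_pair⟩⟩

theorem isModLat_of_modular [IsModularLattice L] : IsModLat L := by
  refine ⟨isLat_of_lattice, ?_⟩
  intro a b c j m k l hac hj hm hk hl
  have e1 : j = a ⊔ b := hj.unique isLUB_pair
  have e2 : m = j ⊓ c := hm.unique isGLB_pair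
  have e3 : k = b ⊓ c := hk.unique isGLB_pair
  have e4 : l = a ⊔ k := hl.unique isLUB_pair
  rw [e2, e1, e4, e3]
  exact sup_inf_assoc_of_le b hac

theorem modular_of_isModLat (h : IsModLat L) : IsModularLattice L :=
  ⟨fun {x} y {z} hxz => (h.2 x y z _ _ _ _ hxz isLUB_pair isGLB_pair isGLB_pair isLUB_pair).le⟩

/-- The elements `z` such that `R ∩ ↓z` has a greatest element. -/
def CM (R : Set L) : Set L := {z | ∃ m, IsGreatest (R ∩ Set.Iic z) m}

theorem cm_inf {r : L → L} (hr : IsRetraction r) {z z' : L} (hz : z ∈ CM (Set.range r))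
    (hz' : z' ∈ CM (Set.range r)) : z ⊓ z' ∈ CM (Set.range r) := by
  obtain ⟨m, ⟨hm1, hm2⟩, hm3⟩ := hz
  obtain ⟨m', ⟨hm1', hm2'⟩, hm3'⟩ := hz'
  have em : r m = m := by obtain ⟨y, rfl⟩ := hm1; exact hr.2 y
  have em' : r m' = m' := by obtain ⟨y, rfl⟩ := hm1'; exact hr.2 y
  refine ⟨r (m ⊓ m'), ⟨⟨m ⊓ m', rfl⟩, ?_⟩, ?_⟩
  · refine le_inf ?_ ?_
    · calc r (m ⊓ m') ≤ r m := hr.1 inf_le_left
        _ = m := em
        _ ≤ z := hm2
    · calc r (m ⊓ m') ≤ r m' := hr.1 inf_le_right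
        _ = m' := em'
        _ ≤ z' := hm2'
  · rintro ρ ⟨⟨y, rfl⟩, hρ⟩
    have h1 : r y ≤ m := hm3 ⟨⟨y, rfl⟩, le_trans hρ inf_le_left⟩
    have h2 : r y ≤ m' := hm3' ⟨⟨y, rfl⟩, le_trans hρ inf_le_right⟩
    calc r y = r (r y) := (hr.2 y).symm
      _ ≤ r (m ⊓ m') := hr.1 (le_inf h1 h2)

/-- every nonempty chain has an infimum -/
def ChainInf (L : Type u) [PartialOrder L] : Prop :=
  ∀ c : Set L, IsChain (· ≤ ·) c → c.Nonempty → ∃ g, IsGLB c g

/-- every nonempty chain has a supremum -/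
def ChainSup (L : Type u) [PartialOrder L] : Prop :=
  ∀ c : Set L, IsChain (· ≤ ·) c → c.Nonempty → ∃ g, IsLUB c g

theorem cm_chain {r : L → L} (hr : IsRetraction r) (hinf : ChainInf L) {c : Set L}
    (hc : c ⊆ CM (Set.range r)) (hch : IsChain (· ≤ ·) c) (hne : c.Nonempty) {g : L}
    (hg : IsGLB c g) : g ∈ CM (Set.range r) := by
  let d : Set L := {m | ∃ z ∈ c, IsGreatest (Set.range r ∩ Set.Iic z) m}
  have hd : IsChain (· ≤ ·) d := by
    rintro m ⟨z, hz, hm⟩ m' ⟨z', hz', hm'⟩ _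
    by_cases hzz : z = z'
    · subst hzz
      left; exact hm'.2 hm.1
    · rcases hch hz hz' hzz with h | h
      · left; exact hm'.2 ⟨hm.1.1, le_trans hm.1.2 h⟩
      · right; exact hm.2 ⟨hm'.1.1, le_trans hm'.1.2 h⟩
  have hdne : d.Nonempty := by
    obtain ⟨z, hz⟩ := hne
    obtain ⟨m, hm⟩ := hc hz
    exact ⟨m, z, hz, hm⟩
  obtain ⟨n, hn⟩ := hinf d hd hdne
  have hrn : ∀ m ∈ d, r n ≤ m := by
    intro m hm
    have h1 : n ≤ m := hn.1 hm
    obtain ⟨z, hz, hm'⟩ := hm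
    have em : r m = m := by
      obtain ⟨y, hy⟩ := hm'.1.1
      rw [← hy]; exact hr.2 y
    calc r n ≤ r m := hr.1 h1
      _ = m := em
  have hrn' : r n ≤ n := hn.2 hrn
  refine ⟨r n, ⟨⟨n, rfl⟩, ?_⟩, ?_⟩
  · apply hg.2
    intro z hz
    obtain ⟨m, hm⟩ := hc hz
    exact (hrn m ⟨z, hz, hm⟩).trans hm.1.2
  · rintro ρ ⟨⟨y, rfl⟩, hρ⟩
    have h1 : r y ≤ n := by
      apply hn.2
      rintro m ⟨z, hz, hm⟩
      exact hm.2 ⟨⟨y, rfl⟩, le_trans hρ (hg.1 hz)⟩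
    calc r y = r (r y) := (hr.2 y).symm
      _ ≤ r n := hr.1 h1

/-- Zorn: least elements. -/
theorem exists_least_of_chain {A : Set L} (hne : A.Nonempty)
    (hmeet : ∀ x ∈ A, ∀ y ∈ A, x ⊓ y ∈ A)
    (hch : ∀ c : Set L, c ⊆ A → IsChain (· ≤ ·) c → c.Nonempty → ∃ g ∈ A, g ∈ lowerBounds c) :
    ∃ y, IsLeast A y := by
  obtain ⟨x, hx⟩ := hne
  obtain ⟨m, _, hm⟩ := zorn_le_nonempty₀ (α := Lᵒᵈ) (OrderDual.ofDual ⁻¹' A) (by
    intro c hc hcc y hy
    have h1 : IsChain (· ≤ ·) (OrderDual.toDual ⁻¹' c) := by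
      intro a ha b hb hab
      rcases hcc ha hb (fun h => hab h) with h | h
      · right; exact h
      · left; exact h
    obtain ⟨g, hgA, hg⟩ := hch (OrderDual.toDual ⁻¹' c) (fun z hz => hc hz) h1
      ⟨OrderDual.ofDual y, hy⟩
    exact ⟨OrderDual.toDual g, hgA, fun z hz => hg hz⟩) (OrderDual.toDual x) hx
  refine ⟨OrderDual.ofDual m, hm.1, ?_⟩
  intro w hw
  have h1 : OrderDual.ofDual m ⊓ w ∈ A := hmeet _ hm.1 _ hw
  have h2 : OrderDual.ofDual m ≤ OrderDual.ofDual m ⊓ w := by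
    have := hm.2 (y := OrderDual.toDual (OrderDual.ofDual m ⊓ w)) h1
      (show OrderDual.ofDual m ⊓ w ≤ OrderDual.ofDual m from inf_le_left)
    exact this
  exact h2.trans inf_le_right

/-- The main construction for modular lattices. -/
theorem modular_rep [IsModularLattice L] {r : L → L} (hr : IsRetraction r)
    (hφ : ∀ x : L, ∃ y, IsLeast {z | x ≤ z ∧ z ∈ CM (Set.range r)} y) :
    ∃ φ ω : L → L, IsClosure φ ∧ IsAnticlosure ω ∧ φ ∘ ω = ω ∘ φ ∧ Rep (Set.range r) φ ω := by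
  choose φ hφ using hφ
  have hex : ∀ x, ∃ m, IsGreatest (Set.range r ∩ Set.Iic (φ x)) m := fun x => (hφ x).1.2
  choose c hc using hex
  have hR : ∀ ρ ∈ Set.range r, IsGreatest (Set.range r ∩ Set.Iic ρ) ρ :=
    fun ρ hρ => ⟨⟨hρ, le_rfl⟩, fun _ h => h.2⟩
  have hφle : ∀ x, x ≤ φ x := fun x => (hφ x).1.1
  have hφR : ∀ ρ ∈ Set.range r, φ ρ = ρ := fun ρ hρ =>
    le_antisymm ((hφ ρ).2 ⟨le_rfl, ρ, hR ρ hρ⟩) (hφle ρ)
  have hcR : ∀ x, c x ∈ Set.range r := fun x => (hc x).1.1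
  have hcφ : ∀ x, c x ≤ φ x := fun x => (hc x).1.2
  have hφmono : Monotone φ := fun x y hxy => (hφ x).2 ⟨hxy.trans (hφle y), (hφ y).1.2⟩
  have hφidem : ∀ x, φ (φ x) = φ x := fun x =>
    le_antisymm ((hφ (φ x)).2 ⟨le_rfl, (hφ x).1.2⟩) (hφle _)
  have hceq : ∀ x y, φ x = φ y → c x = c y := by
    intro x y h
    have h1 := hc x
    rw [h] at h1
    exact h1.unique (hc y)
  have hcmono : Monotone c := fun x y hxy =>
    (hc y).2 ⟨hcR x, (hcφ x).trans (hφmono hxy)⟩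
  have hcρ : ∀ ρ ∈ Set.range r, c ρ = ρ := by
    intro ρ hρ
    have h1 := hc ρ
    rw [hφR ρ hρ] at h1
    exact h1.unique (hR ρ hρ)
  -- key claim
  have key : ∀ x, φ (x ⊓ c x) = c x := by
    intro x
    have hz1 : φ (x ⊓ c x) ≤ c x := (hφ _).2 ⟨inf_le_right, c x, hR _ (hcR x)⟩
    have hw : (φ (x ⊓ c x) ⊔ x) ⊓ c x = φ (x ⊓ c x) := by
      rw [sup_inf_assoc_of_le x hz1]
      exact sup_eq_left.2 (hφle _)
    have hwle : φ (x ⊓ c x) ⊔ x ≤ φ x := sup_le (hz1.trans (hcφ x)) (hφle x)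
    have hwC : φ (x ⊓ c x) ⊔ x ∈ CM (Set.range r) := by
      refine ⟨c (x ⊓ c x), ⟨hcR _, le_trans (hcφ _) le_sup_left⟩, ?_⟩
      rintro ρ ⟨hρ, hρw⟩
      have h1 : ρ ≤ c x := (hc x).2 ⟨hρ, le_trans hρw hwle⟩
      have h2 : ρ ≤ φ (x ⊓ c x) := by
        rw [← hw]; exact le_inf hρw h1
      exact (hc (x ⊓ c x)).2 ⟨hρ, h2⟩
    have h3 : φ x ≤ φ (x ⊓ c x) ⊔ x := (hφ x).2 ⟨le_sup_right, hwC⟩
    have h4 : c x ≤ (φ (x ⊓ c x) ⊔ x) ⊓ c x := le_inf ((hcφ x).trans h3) le_rfl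
    rw [hw] at h4
    exact le_antisymm hz1 h4
  have hcc : ∀ x, c (x ⊓ c x) = c x := by
    intro x
    have h1 : φ (x ⊓ c x) = φ (c x) := by rw [key x, hφR _ (hcR x)]
    rw [hceq _ _ h1, hcρ _ (hcR x)]
  have hcφ' : ∀ x, c (φ x) = c x := fun x => hceq _ _ (hφidem x)
  refine ⟨φ, fun x => x ⊓ c x, ⟨⟨hφmono, hφidem⟩, hφle⟩,
    ⟨⟨fun x y hxy => inf_le_inf hxy (hcmono hxy), ?_⟩, fun x => inf_le_left⟩, ?_, ?_, ?_, ?_⟩
  · intro x
    change (x ⊓ c x) ⊓ c (x ⊓ c x) = x ⊓ c x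
    rw [hcc x, inf_assoc, inf_idem]
  · funext x
    change φ (x ⊓ c x) = φ x ⊓ c (φ x)
    rw [key x, hcφ' x, inf_eq_right.2 (hcφ x)]
  · apply Set.eq_of_subset_of_subset
    · intro ρ hρ
      exact ⟨ρ, by change φ (ρ ⊓ c ρ) = ρ; rw [key ρ, hcρ ρ hρ]⟩
    · rintro _ ⟨x, rfl⟩
      change φ (x ⊓ c x) ∈ _
      rw [key x]; exact hcR x
  · apply Set.eq_of_subset_of_subset
    · intro ρ hρ
      exact ⟨ρ, by
        change φ ρ ⊓ c (φ ρ) = ρ
        rw [hφR ρ hρ, hcρ ρ hρ, inf_idem]⟩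
    · rintro _ ⟨x, rfl⟩
      change φ x ⊓ c (φ x) ∈ _
      rw [hcφ' x, inf_eq_right.2 (hcφ x)]; exact hcR x
  · apply Set.eq_of_subset_of_subset
    · intro ρ hρ
      exact ⟨⟨ρ, hφR ρ hρ⟩, ⟨ρ, by change ρ ⊓ c ρ = ρ; rw [hcρ ρ hρ, inf_idem]⟩⟩
    · rintro y ⟨⟨x, hx⟩, ⟨x', hx'⟩⟩
      have e1 : φ y = y := by rw [← hx]; exact hφidem x
      have e2 : y ≤ c y := by
        have : y = y ⊓ c y := by
          rw [← hx']
          change x' ⊓ c x' = (x' ⊓ c x') ⊓ c (x' ⊓ c x')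
          rw [hcc x', inf_assoc, inf_idem]
        rw [this]
        calc y ⊓ c y ≤ c y := inf_le_right
          _ = c (y ⊓ c y) := by rw [hcc y]
      have e3 : c y ≤ y := by
        calc c y ≤ φ y := hcφ y
          _ = y := e1
      rw [le_antisymm e2 e3]
      exact hcR y

/-- no strictly increasing sequence is bounded above -/
def NoIncr (L : Type u) [PartialOrder L] : Prop :=
  ∀ f : ℕ → L, StrictMono f → ¬ BddAbove (Set.range f)

/-- no strictly decreasing sequence is bounded below -/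
def NoDecr (L : Type u) [PartialOrder L] : Prop :=
  ∀ f : ℕ → L, StrictAnti f → ¬ BddBelow (Set.range f)

theorem cm_cofinal_top {r : L → L} (hr : IsRetraction r) (ht : ∃ t : L, ∀ y, y ≤ t) (x : L) :
    ∃ z, x ≤ z ∧ z ∈ CM (Set.range r) := by
  obtain ⟨t, ht⟩ := ht
  refine ⟨t, ht x, r t, ⟨⟨t, rfl⟩, ht _⟩, ?_⟩
  rintro ρ ⟨⟨y, rfl⟩, _⟩
  exact hr.1 (ht y)

theorem wf_below (h : NoIncr L) (x : L) :
    WellFounded (fun s t : {s : L // s ≤ x} => (t : L) < s) := by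
  have : IsStrictOrder {s : L // s ≤ x} (fun s t => (t : L) < s) :=
    { irrefl := fun a => lt_irrefl _
      trans := fun a b c hab hbc => lt_trans hbc hab }
  rw [RelEmbedding.wellFounded_iff_isEmpty]
  refine ⟨fun f => ?_⟩
  apply h (fun n => (f n : L))
  · apply strictMono_nat_of_lt_succ
    intro n
    exact f.map_rel_iff.2 (Nat.lt_succ_self n)
  · refine ⟨x, ?_⟩
    rintro _ ⟨n, rfl⟩
    exact (f n).2

theorem wf_above (h : NoDecr L) (x : L) :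
    WellFounded (fun s t : {s : L // x ≤ s} => (s : L) < t) := by
  have : IsStrictOrder {s : L // x ≤ s} (fun s t => (s : L) < t) :=
    { irrefl := fun a => lt_irrefl _
      trans := fun a b c hab hbc => lt_trans hab hbc }
  rw [RelEmbedding.wellFounded_iff_isEmpty]
  refine ⟨fun f => ?_⟩
  apply h (fun n => (f n : L))
  · apply strictAnti_nat_of_succ_lt
    intro n
    exact f.map_rel_iff.2 (Nat.lt_succ_self n)
  · refine ⟨x, ?_⟩
    rintro _ ⟨n, rfl⟩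
    exact (f n).2

theorem cm_cofinal_acc [IsModularLattice L] {r : L → L} (hr : IsRetraction r) (h : NoIncr L)
    (x : L) : ∃ z, x ≤ z ∧ z ∈ CM (Set.range r) := by
  have wf := wf_below h x
  have main : ∀ s : {s : L // s ≤ x}, ∀ c ∈ Set.range r, x ⊓ c = s →
      ∃ z, x ≤ z ∧ z ∈ CM (Set.range r) := by
    intro s
    induction s using wf.induction with
    | _ s ih =>
      intro c hcR hcs
      have ec : r c = c := by obtain ⟨y, rfl⟩ := hcR; exact hr.2 y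
      have h1 : c ≤ r (x ⊔ c) := by
        calc c = r c := ec.symm
          _ ≤ r (x ⊔ c) := hr.1 le_sup_right
      by_cases heq : x ⊓ r (x ⊔ c) = x ⊓ c
      · refine ⟨x ⊔ c, le_sup_left, c, ⟨hcR, le_sup_right⟩, ?_⟩
        rintro ρ ⟨⟨y, rfl⟩, hρ⟩
        have h2 : r y ≤ r (x ⊔ c) := by
          calc r y = r (r y) := (hr.2 y).symm
            _ ≤ r (x ⊔ c) := hr.1 hρ
        have h3 : (c ⊔ x) ⊓ r (x ⊔ c) = c ⊔ x ⊓ r (x ⊔ c) := sup_inf_assoc_of_le x h1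
        calc r y ≤ (c ⊔ x) ⊓ r (x ⊔ c) := le_inf (by rw [sup_comm]; exact hρ) h2
          _ = c ⊔ x ⊓ c := by rw [h3, heq]
          _ = c := sup_eq_left.2 inf_le_right
      · have hlt : x ⊓ c < x ⊓ r (x ⊔ c) :=
          lt_of_le_of_ne (inf_le_inf le_rfl h1) (fun h => heq h.symm)
        exact ih ⟨x ⊓ r (x ⊔ c), inf_le_left⟩ (by rw [← hcs]; exact hlt) (r (x ⊔ c)) ⟨_, rfl⟩ rfl
  exact main ⟨x ⊓ r x, inf_le_left⟩ (r x) ⟨x, rfl⟩ rfl

theorem propC_of_modular [IsModularLattice L]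
    (ha : (∃ t : L, ∀ y, y ≤ t) ∨ NoIncr L) (hb : ChainInf L ∨ NoDecr L) : PropC L := by
  intro R hRne
  constructor
  swap
  · rintro ⟨φ, ω, h1, h2, _, h4⟩
    exact retract_of_rep h1 h2 h4
  rintro ⟨r, hr, rfl⟩
  apply modular_rep hr
  intro x
  have hne : ∃ z, x ≤ z ∧ z ∈ CM (Set.range r) := by
    rcases ha with ha | ha
    · exact cm_cofinal_top hr ha x
    · exact cm_cofinal_acc hr ha x
  have hmeet : ∀ y ∈ {z | x ≤ z ∧ z ∈ CM (Set.range r)},
      ∀ z ∈ {z | x ≤ z ∧ z ∈ CM (Set.range r)}, y ⊓ z ∈ {z | x ≤ z ∧ z ∈ CM (Set.range r)} :=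
    fun y hy z hz => ⟨le_inf hy.1 hz.1, cm_inf hr hy.2 hz.2⟩
  rcases hb with hb | hb
  · apply exists_least_of_chain hne hmeet
    intro c hc hch hcne
    obtain ⟨g, hg⟩ := hb c hch hcne
    exact ⟨g, ⟨hg.2 (fun z hz => (hc hz).1),
      cm_chain hr hb (fun z hz => (hc hz).2) hch hcne hg⟩, hg.1⟩
  · obtain ⟨z0, hz0⟩ := hne
    have wf := wf_above hb x
    obtain ⟨m, hm1, hm2⟩ := wf.has_min {s | (s : L) ∈ CM (Set.range r)} ⟨⟨z0, hz0.1⟩, hz0.2⟩
    refine ⟨m, ⟨m.2, hm1⟩, ?_⟩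
    rintro w ⟨hw1, hw2⟩
    have h1 := hmeet m ⟨m.2, hm1⟩ w ⟨hw1, hw2⟩
    have h2 := hm2 ⟨(m : L) ⊓ w, h1.1⟩ h1.2
    have h3 : (m : L) ⊓ w = m := by
      by_contra hne'
      exact h2 (lt_of_le_of_ne inf_le_left hne')
    rw [← h3]; exact inf_le_right

/-- Lattices in which all nonempty chains have suprema have a greatest element. -/
theorem exists_top (hs : ChainSup L) [Nonempty L] : ∃ t : L, ∀ y, y ≤ t := by
  obtain ⟨x⟩ := ‹Nonempty L›
  obtain ⟨m, _, hm⟩ := zorn_le_nonempty₀ (α := L) Set.univ (by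
    intro c _ hcc y hy
    obtain ⟨g, hg⟩ := hs c hcc ⟨y, hy⟩
    exact ⟨g, Set.mem_univ _, fun z hz => hg.1 hz⟩) x (Set.mem_univ _)
  refine ⟨m, fun y => ?_⟩
  have h1 : m ⊔ y ≤ m := hm.2 (Set.mem_univ _) le_sup_left
  exact le_sup_right.trans h1

theorem exists_bot (hs : ChainInf L) [Nonempty L] : ∃ t : L, ∀ y, t ≤ y := by
  obtain ⟨y, hy⟩ := exists_least_of_chain (L := L) (A := Set.univ) Set.univ_nonempty
    (fun _ _ _ _ => Set.mem_univ _) (fun c _ hc hne => by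
      obtain ⟨g, hg⟩ := hs c hc hne
      exact ⟨g, Set.mem_univ _, hg.1⟩)
  exact ⟨y, fun z => hy.2 (Set.mem_univ z)⟩

/-- Lemma A: representation through pre- and postfixed points. -/
theorem rep_of_pre {P : Type u} [PartialOrder P] {r : P → P} (hr : IsRetraction r)
    (h1 : ∀ x, ∃ y, IsLeast {y | x ≤ y ∧ r y ≤ y} y)
    (h2 : ∀ x, ∃ y, IsGreatest {y | y ≤ x ∧ y ≤ r y} y) :
    ∃ φ ω : P → P, IsClosure φ ∧ IsAnticlosure ω ∧ Rep (Set.range r) φ ω := by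
  choose φ hφ using h1
  choose ω hω using h2
  have hφle : ∀ x, x ≤ φ x := fun x => (hφ x).1.1
  have hωle : ∀ x, ω x ≤ x := fun x => (hω x).1.1
  have hφmono : Monotone φ := fun x y hxy => (hφ x).2 ⟨hxy.trans (hφle y), (hφ y).1.2⟩
  have hωmono : Monotone ω := fun x y hxy => (hω y).2 ⟨(hωle x).trans hxy, (hω x).1.2⟩
  have hφpre : ∀ x, r x ≤ x → φ x = x := fun x hx =>
    le_antisymm ((hφ x).2 ⟨le_rfl, hx⟩) (hφle x)
  have hωpost : ∀ x, x ≤ r x → ω x = x := fun x hx =>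
    le_antisymm (hωle x) ((hω x).2 ⟨le_rfl, hx⟩)
  have hφidem : ∀ x, φ (φ x) = φ x := fun x => hφpre _ (hφ x).1.2
  have hωidem : ∀ x, ω (ω x) = ω x := fun x => hωpost _ (hω x).1.2
  have hR : ∀ ρ ∈ Set.range r, r ρ = ρ := by rintro _ ⟨y, rfl⟩; exact hr.2 y
  have hφpost : ∀ x, x ≤ r x → φ x = r x := by
    intro x hx
    apply le_antisymm
    · exact (hφ x).2 ⟨hx, (hr.2 x).le⟩
    · calc r x ≤ r (φ x) := hr.1 (hφle x)
        _ ≤ φ x := (hφ x).1.2
  have hωpre : ∀ x, r x ≤ x → ω x = r x := by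
    intro x hx
    apply le_antisymm
    · calc ω x ≤ r (ω x) := (hω x).1.2
        _ ≤ r x := hr.1 (hωle x)
    · exact (hω x).2 ⟨hx, (hr.2 x).ge⟩
  refine ⟨φ, ω, ⟨⟨hφmono, hφidem⟩, hφle⟩, ⟨⟨hωmono, hωidem⟩, hωle⟩, ?_, ?_, ?_⟩
  · apply Set.eq_of_subset_of_subset
    · intro ρ hρ
      refine ⟨ρ, ?_⟩
      change φ (ω ρ) = ρ
      rw [hωpost ρ (hR ρ hρ).ge, hφpre ρ (hR ρ hρ).le]
    · rintro _ ⟨x, rfl⟩
      change φ (ω x) ∈ _
      rw [hφpost _ (hω x).1.2]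
      exact ⟨_, rfl⟩
  · apply Set.eq_of_subset_of_subset
    · intro ρ hρ
      refine ⟨ρ, ?_⟩
      change ω (φ ρ) = ρ
      rw [hφpre ρ (hR ρ hρ).le, hωpost ρ (hR ρ hρ).ge]
    · rintro _ ⟨x, rfl⟩
      change ω (φ x) ∈ _
      rw [hωpre _ (hφ x).1.2]
      exact ⟨_, rfl⟩
  · apply Set.eq_of_subset_of_subset
    · intro ρ hρ
      exact ⟨⟨ρ, hφpre ρ (hR ρ hρ).le⟩, ⟨ρ, hωpost ρ (hR ρ hρ).ge⟩⟩
    · rintro y ⟨⟨x, hx⟩, ⟨x', hx'⟩⟩
      have e1 : r y ≤ y := by rw [← hx]; exact (hφ x).1.2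
      have e2 : y ≤ r y := by rw [← hx']; exact (hω x').1.2
      exact ⟨y, le_antisymm e1 e2⟩

/-- pre-fixed points -/
theorem least_pre {r : L → L} (hr : IsRetraction r) (hinf : ChainInf L)
    (ht : ∃ t : L, ∀ y, y ≤ t) (x : L) : ∃ y, IsLeast {y | x ≤ y ∧ r y ≤ y} y := by
  obtain ⟨t, ht⟩ := ht
  apply exists_least_of_chain
  · exact ⟨t, ht x, ht _⟩
  · rintro y ⟨hy1, hy2⟩ z ⟨hz1, hz2⟩
    exact ⟨le_inf hy1 hz1, le_inf ((hr.1 inf_le_left).trans hy2) ((hr.1 inf_le_right).trans hz2)⟩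
  · intro c hc hch hne
    obtain ⟨g, hg⟩ := hinf c hch hne
    refine ⟨g, ⟨hg.2 (fun z hz => (hc hz).1), ?_⟩, hg.1⟩
    apply hg.2
    intro z hz
    exact (hr.1 (hg.1 hz)).trans (hc hz).2

end lat

theorem chainInf_dual {L : Type u} [Lattice L] (h : ChainSup L) : ChainInf Lᵒᵈ := by
  intro c hc hne
  obtain ⟨g, hg⟩ := h (OrderDual.toDual ⁻¹' c) (by
    intro a ha b hb hab
    rcases hc ha hb (fun h => hab h) with h | h
    · right; exact h
    · left; exact h) (by obtain ⟨y, hy⟩ := hne; exact ⟨OrderDual.ofDual y, hy⟩)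
  exact ⟨OrderDual.toDual g, fun z hz => hg.1 hz, fun z hz => hg.2 (fun w hw => hz hw)⟩

theorem greatest_post {L : Type u} [Lattice L] {r : L → L} (hr : IsRetraction r)
    (hsup : ChainSup L) (hb : ∃ t : L, ∀ y, t ≤ y) (x : L) :
    ∃ y, IsGreatest {y | y ≤ x ∧ y ≤ r y} y := by
  obtain ⟨t, ht⟩ := hb
  have hr' : IsRetraction (P := Lᵒᵈ) (fun y => OrderDual.toDual (r (OrderDual.ofDual y))) :=
    ⟨fun a b hab => hr.1 hab, fun a => hr.2 _⟩
  have ht' : ∃ t : Lᵒᵈ, ∀ y, y ≤ t := ⟨OrderDual.toDual t, fun y => ht (OrderDual.ofDual y)⟩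
  obtain ⟨y, hy⟩ := @least_pre Lᵒᵈ _ _ hr' (chainInf_dual hsup) ht' (OrderDual.toDual x)
  exact ⟨OrderDual.ofDual y, hy.1, fun z hz => hy.2 hz⟩

theorem propC'_of_complete {L : Type u} [Lattice L] (hi : ChainInf L) (hs : ChainSup L) :
    PropC' L := by
  intro R hRne
  constructor
  swap
  · rintro ⟨φ, ω, h1, h2, h4⟩
    exact retract_of_rep h1 h2 h4
  rintro ⟨r, hr, rfl⟩
  have : Nonempty L := ⟨hRne.some⟩
  exact rep_of_pre hr (least_pre hr hi (exists_top hs)) (greatest_post hr hs (exists_bot hi))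

/-- Chains have property (C). -/
theorem propC_of_linear {L : Type u} [LinearOrder L] : PropC L := by
  intro R hRne
  constructor
  swap
  · rintro ⟨φ, ω, h1, h2, _, h4⟩
    exact retract_of_rep h1 h2 h4
  rintro ⟨r, hr, rfl⟩
  have hφ : ∀ x, max x (r x) = x ∧ r x ≤ x ∨ max x (r x) = r x ∧ x ≤ r x := by
    intro x
    rcases le_total x (r x) with h | h
    · right; exact ⟨max_eq_right h, h⟩
    · left; exact ⟨max_eq_left h, h⟩
  have hω : ∀ x, min x (r x) = x ∧ x ≤ r x ∨ min x (r x) = r x ∧ r x ≤ x := by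
    intro x
    rcases le_total x (r x) with h | h
    · left; exact ⟨min_eq_left h, h⟩
    · right; exact ⟨min_eq_right h, h⟩
  have e1 : ∀ x, r (max x (r x)) = r x := by
    intro x
    rcases hφ x with ⟨h, _⟩ | ⟨h, _⟩
    · rw [h]
    · rw [h, hr.2]
  have e2 : ∀ x, r (min x (r x)) = r x := by
    intro x
    rcases hω x with ⟨h, _⟩ | ⟨h, _⟩
    · rw [h]
    · rw [h, hr.2]
  have e3 : ∀ x, max (min x (r x)) (r x) = r x := fun x => max_eq_right (min_le_right _ _)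
  have e4 : ∀ x, min (max x (r x)) (r x) = r x := fun x => min_eq_right (le_max_right _ _)
  have hR : ∀ ρ ∈ Set.range r, r ρ = ρ := by rintro _ ⟨y, rfl⟩; exact hr.2 y
  refine ⟨fun x => max x (r x), fun x => min x (r x),
    ⟨⟨fun x y hxy => max_le_max hxy (hr.1 hxy), ?_⟩, fun x => le_max_left _ _⟩,
    ⟨⟨fun x y hxy => min_le_min hxy (hr.1 hxy), ?_⟩, fun x => min_le_left _ _⟩, ?_, ?_, ?_, ?_⟩
  · intro x
    change max (max x (r x)) (r (max x (r x))) = max x (r x)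
    rw [e1, max_eq_left (le_max_right _ _)]
  · intro x
    change min (min x (r x)) (r (min x (r x))) = min x (r x)
    rw [e2, min_eq_left (min_le_right _ _)]
  · funext x
    change max (min x (r x)) (r (min x (r x))) = min (max x (r x)) (r (max x (r x)))
    rw [e1, e2, e3, e4]
  · apply Set.eq_of_subset_of_subset
    · intro ρ hρ
      refine ⟨ρ, ?_⟩
      change max (min ρ (r ρ)) (r (min ρ (r ρ))) = ρ
      rw [e2, e3, hR ρ hρ]
    · rintro _ ⟨x, rfl⟩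
      change max (min x (r x)) (r (min x (r x))) ∈ _
      rw [e2, e3]; exact ⟨x, rfl⟩
  · apply Set.eq_of_subset_of_subset
    · intro ρ hρ
      refine ⟨ρ, ?_⟩
      change min (max ρ (r ρ)) (r (max ρ (r ρ))) = ρ
      rw [e1, e4, hR ρ hρ]
    · rintro _ ⟨x, rfl⟩
      change min (max x (r x)) (r (max x (r x))) ∈ _
      rw [e1, e4]; exact ⟨x, rfl⟩
  · apply Set.eq_of_subset_of_subset
    · intro ρ hρ
      exact ⟨⟨ρ, by change max ρ (r ρ) = ρ; rw [hR ρ hρ, max_self]⟩,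
        ⟨ρ, by change min ρ (r ρ) = ρ; rw [hR ρ hρ, min_self]⟩⟩
    · rintro y ⟨⟨x, hx⟩, ⟨x', hx'⟩⟩
      have f1 : r y ≤ y := by
        rw [← hx]
        change r (max x (r x)) ≤ max x (r x)
        rw [e1]; exact le_max_right _ _
      have f2 : y ≤ r y := by
        rw [← hx']
        change min x' (r x') ≤ r (min x' (r x'))
        rw [e2]; exact min_le_right _ _
      exact ⟨y, le_antisymm f1 f2⟩

end Pool.Agent.Q110.RT
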